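import Pool.Agent.Y522.NA.StmP
import Pool.Agent.Y98.NA.Term

/-!
# NP-JC: joint continuity of the mollification and of its derivative
-/

set_option autoImplicit false

open Set Filter Topology Metric Function MeasureTheory
open scoped Manifold ContDiff

noncomputable section

namespace Pool.Agent.Y273.NA

open Pool.Agent.Y522 Pool.Agent.Y522.NA Pool.Agent.Y954.SH Pool.Agent.Y98.NA

variable {n q : ℕ}

lemma inball {t₀ : ℝ} {y : E n} {r c : ℝ} (hc : 0 < c) {p : ℝ × E n}
    (hp : dist p (t₀, y) + c < r) {s : E n} (hs : ‖s‖ ≤ 1) :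
    (p.1, p.2 + c • s) ∈ ball (t₀, y) r := by
  rw [mem_ball]
  have h1 : dist (p.1, p.2 + c • s) p ≤ c := by
    rw [Prod.dist_eq]
    refine max_le ?_ ?_
    · rw [dist_self]
      exact hc.le
    · rw [dist_eq_norm, add_sub_cancel_left, norm_smul, Real.norm_of_nonneg hc.le]
      nlinarith
  linarith [dist_triangle (p.1, p.2 + c • s) p (t₀, y)]

/-- joint continuity of an integral against a kernel -/
lemma jcont {H : ℝ × E n → E q} {t₀ : ℝ} {y : E n} {r B c : ℝ}
    (hH : ∀ p ∈ ball (t₀, y) r, ContinuousAt H p ∧ ‖H p‖ ≤ B) {k : E n → ℝ} (hk : Continuous k)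
    (h0 : ∀ s, 1 ≤ ‖s‖ → k s = 0) (hc : 0 < c) {p₀ : ℝ × E n} (hp : dist p₀ (t₀, y) + c < r) :
    ContinuousAt (fun p : ℝ × E n => ∫ s, k s • H (p.1, p.2 + c • s)) p₀ := by
  have hev : ∀ᶠ p : ℝ × E n in 𝓝 p₀, dist p (t₀, y) + c < r := by
    have h2 : Continuous fun p : ℝ × E n => dist p (t₀, y) + c := by fun_prop
    exact h2.continuousAt.eventually_lt_const hp
  have hint : Integrable (fun s => ‖k s‖ * B) := by
    have h1 : Integrable (fun s => k s • (1 : ℝ)) := int_cut hk h0 continuousOn_const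
    simp only [smul_eq_mul, mul_one] at h1
    exact h1.norm.mul_const B
  refine continuousAt_of_dominated (bound := fun s => ‖k s‖ * B) ?_ ?_ hint ?_
  · filter_upwards [hev] with p hpp
    refine (int_cut hk h0 ?_).aestronglyMeasurable
    intro s hs
    rw [mem_closedBall_zero_iff] at hs
    have h1 := (hH _ (inball hc hpp hs)).1
    have h2 : ContinuousAt (fun s : E n => (p.1, p.2 + c • s)) s := by fun_prop
    exact (ContinuousAt.comp (f := fun s : E n => (p.1, p.2 + c • s)) h1 h2).continuousWithinAt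
  · filter_upwards [hev] with p hpp
    refine Eventually.of_forall fun s => ?_
    by_cases hs : 1 ≤ ‖s‖
    · rw [h0 s hs]
      simp
    · rw [norm_smul]
      exact mul_le_mul_of_nonneg_left (hH _ (inball hc hpp (not_le.1 hs).le)).2 (norm_nonneg _)
  · refine Eventually.of_forall fun s => ?_
    by_cases hs : 1 ≤ ‖s‖
    · rw [h0 s hs]
      simp only [zero_smul]
      exact continuousAt_const
    · have h1 := (hH _ (inball hc hp (not_le.1 hs).le)).1
      have h2 : ContinuousAt (fun p : ℝ × E n => (p.1, p.2 + c • s)) p₀ := by fun_prop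
      exact (ContinuousAt.comp (f := fun p : ℝ × E n => (p.1, p.2 + c • s)) h1 h2).const_smul
        (k s)

theorem jc : StJC := by
  intro n q κ g t₀ E0 T S y hg hE hT
  have hSev : ∀ᶠ w in 𝓝 y, ContDiffAt ℝ ∞ S w := hT.ldS.eventually.mono fun w hw => hw.contDiffAt
  have hTev : ∀ᶠ z in 𝓝 (0 : E n), ContDiffAt ℝ ∞ T z :=
    hT.ldT.eventually.mono fun w hw => hw.contDiffAt
  have hSy : S y = 0 := by
    have := hT.inv.self_of_nhds
    rwa [hT.pt] at this
  obtain ⟨H, hH⟩ : ∃ H : ℝ × E n → E q, H = fun p => E0 (g p.1 (S p.2)) := ⟨_, rfl⟩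
  -- continuity of `H` near `(t₀, y)`
  have hSc : ∀ᶠ p : ℝ × E n in 𝓝 (t₀, y), ContinuousAt (fun p : ℝ × E n => (p.1, S p.2)) p := by
    have h1 : ∀ᶠ p : ℝ × E n in 𝓝 (t₀, y), ContDiffAt ℝ ∞ S p.2 :=
      (continuousAt_snd (p := (t₀, y))).eventually hSev
    filter_upwards [h1] with p hp
    exact continuousAt_fst.prodMk
      (ContinuousAt.comp (f := fun p : ℝ × E n => p.2) hp.continuousAt continuousAt_snd)
  have hgc : ∀ᶠ p : ℝ × E n in 𝓝 (t₀, y),
      ContinuousAt (fun w : ℝ × E n => g w.1 w.2) (p.1, S p.2) ∧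
        ContDiffAt ℝ ∞ E0 (g p.1 (S p.2)) := by
    have h1 : Tendsto (fun p : ℝ × E n => (p.1, S p.2)) (𝓝 (t₀, y)) (𝓝 (t₀, 0)) := by
      have h2 := hSc.self_of_nhds
      rw [ContinuousAt] at h2
      simpa only [hSy] using h2
    have h3 : Tendsto (fun w : ℝ × E n => g w.1 w.2) (𝓝 (t₀, 0)) (𝓝 (g t₀ 0)) :=
      hg.self_of_nhds
    exact (h1.eventually hg).and (h1.eventually (h3.eventually hE))
  have hHc : ∀ᶠ p in 𝓝 (t₀, y), ContinuousAt H p := by
    filter_upwards [hSc, hgc] with p h1 h2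
    rw [hH]
    have h3 : ContinuousAt (fun p : ℝ × E n => g p.1 (S p.2)) p :=
      ContinuousAt.comp (g := fun w : ℝ × E n => g w.1 w.2)
        (f := fun p : ℝ × E n => (p.1, S p.2)) h2.1 h1
    exact ContinuousAt.comp (f := fun p : ℝ × E n => g p.1 (S p.2)) h2.2.continuousAt h3
  have hHb : ∀ᶠ p in 𝓝 (t₀, y), ‖H p‖ ≤ ‖H (t₀, y)‖ + 1 := by
    have h1 : ∀ᶠ p in 𝓝 (t₀, y), ‖H p‖ < ‖H (t₀, y)‖ + 1 :=
      hHc.self_of_nhds.norm.eventually_lt_const (lt_add_one _)
    exact h1.mono fun p hp => hp.le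
  obtain ⟨r, hr, hb⟩ := Metric.eventually_nhds_iff_ball.1 (hHc.and hHb)
  have hTy : ∀ᶠ z in 𝓝 (0 : E n), T z ∈ ball y (r / 4) := by
    have h1 := hTev.self_of_nhds.continuousAt
    rw [ContinuousAt, hT.pt] at h1
    exact h1.eventually (ball_mem_nhds _ (by positivity))
  obtain ⟨rd, hrd, hTd⟩ := Metric.eventually_nhds_iff_ball.1 (hTy.and hTev)
  refine ⟨min (r / 4) rd, r / 4, lt_min (by positivity) hrd, by positivity, ?_⟩
  -- the smoothness, at all points nearby
  have hsm : ∀ t : ℝ, |t - t₀| < r / 4 → ∀ w : E n, dist w y < r / 4 → ∀ c : ℝ, 0 < c →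
      c ≤ r / 4 → ContDiffAt ℝ ∞ (fun y => ∫ s, kr n s • H (t, y + c • s)) w ∧
      ∀ a, fderiv ℝ (fun y => ∫ s, kr n s • H (t, y + c • s)) w a =
        c⁻¹ • ∫ s, k1 a s • H (t, w + c • s) := by
    intro t ht w hw c hc hc0
    refine mol_loc (H := fun w => H (t, w)) (y := y) (R := r / 2) ?_ hc (by linarith)
    intro v hv
    rw [mem_closedBall] at hv
    have h1 : (t, v) ∈ ball (t₀, y) r := by
      rw [mem_ball, Prod.dist_eq]
      refine max_lt ?_ ?_
      · rw [Real.dist_eq]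
        exact ht.trans (by linarith)
      · exact hv.trans_lt (by linarith)
    have h2 : ContinuousAt (fun v : E n => (t, v)) v := by fun_prop
    exact (ContinuousAt.comp (f := fun v : E n => (t, v)) (hb _ h1).1 h2).continuousWithinAt
  intro t ht z hz c hc hc0
  have htr : |t - t₀| < r / 4 := ht.trans_le (min_le_left _ _)
  have hzd : z ∈ ball (0 : E n) rd := by
    rw [mem_ball_zero_iff]
    exact hz.trans_le (min_le_right _ _)
  obtain ⟨hTzy, hTs⟩ := hTd z hzd
  rw [mem_ball] at hTzy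
  obtain ⟨m, hm⟩ : ∃ m : ℝ × E n → E q, m = fun p => ∫ s, kr n s • H (p.1, p.2 + c • s) :=
    ⟨_, rfl⟩
  have hTerm : ∀ t, Term n q (g t) E0 T S c = fun z => m (t, T z) := by
    intro t
    rw [hm, hH]
    rfl
  have hp : dist (t, T z) (t₀, y) + c < r := by
    have h1 : dist (t, T z) (t₀, y) ≤ r / 4 := by
      rw [Prod.dist_eq]
      refine max_le ?_ hTzy.le
      rw [Real.dist_eq]
      exact htr.le
    linarith
  have hTc : ContinuousAt (fun w : ℝ × E n => (w.1, T w.2)) (t, z) :=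
    continuousAt_fst.prodMk
      (ContinuousAt.comp (f := fun p : ℝ × E n => p.2) (x := (t, z)) hTs.continuousAt
        continuousAt_snd)
  have hmc : ContinuousAt m (t, T z) := by
    rw [hm]
    exact jcont hb kr_smooth.continuous (fun _ h => kr_zero h) hc hp
  refine ⟨?_, ?_, ?_⟩
  · rw [hTerm]
    have h1 := (hsm t htr (T z) hTzy c hc hc0).1
    have h2 : ContDiffAt ℝ ∞ (fun w => m (t, w)) (T z) := by
      rw [hm]
      exact h1
    exact ContDiffAt.comp (g := fun w => m (t, w)) z h2 hTs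
  · simp only [hTerm]
    exact ContinuousAt.comp (g := m) (f := fun w : ℝ × E n => (w.1, T w.2)) (x := (t, z)) hmc hTc
  · -- the derivative
    obtain ⟨M, hM⟩ : ∃ M : ℝ × E n → (E n →L[ℝ] E q), M = fun p =>
      fderiv ℝ (fun w => m (p.1, w)) p.2 := ⟨_, rfl⟩
    have hevp : ∀ᶠ p : ℝ × E n in 𝓝 (t, T z), |p.1 - t₀| < r / 4 ∧ dist p.2 y < r / 4 := by
      have h1 : ContinuousAt (fun p : ℝ × E n => |p.1 - t₀|) (t, T z) := by fun_prop
      have h2 : ContinuousAt (fun p : ℝ × E n => dist p.2 y) (t, T z) := by fun_prop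
      exact (h1.eventually_lt_const htr).and (h2.eventually_lt_const hTzy)
    have hMc : ContinuousAt M (t, T z) := by
      rw [continuousAt_clm_apply]
      intro a
      have h1 : (fun p => M p a) =ᶠ[𝓝 (t, T z)]
          fun p => c⁻¹ • ∫ s, k1 a s • H (p.1, p.2 + c • s) := by
        filter_upwards [hevp] with p hpp
        rw [hM, hm]
        exact (hsm p.1 hpp.1 p.2 hpp.2 c hc hc0).2 a
      refine ContinuousAt.congr ?_ h1.symm
      exact (jcont hb (k1_cont a) (fun _ h => k1_zero h) hc hp).const_smul c⁻¹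
    have hev : (fun w : ℝ × E n => fderiv ℝ (Term n q (g w.1) E0 T S c) w.2) =ᶠ[𝓝 (t, z)]
        fun w => (M (w.1, T w.2)).comp (fderiv ℝ T w.2) := by
      have h1 : ∀ᶠ w : ℝ × E n in 𝓝 (t, z), |w.1 - t₀| < r / 4 ∧ dist (T w.2) y < r / 4 :=
        hTc.eventually hevp
      have h2 : ∀ᶠ w : ℝ × E n in 𝓝 (t, z), w.2 ∈ ball (0 : E n) rd :=
        (continuousAt_snd (p := (t, z))).eventually (isOpen_ball.mem_nhds hzd)
      filter_upwards [h1, h2] with w hw1 hw2
      have h3 := (hsm w.1 hw1.1 (T w.2) hw1.2 c hc hc0).1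
      have h4 : ContDiffAt ℝ ∞ (fun v => m (w.1, v)) (T w.2) := by
        rw [hm]
        exact h3
      have h5 : HasFDerivAt (fun v => m (w.1, v)) (M (w.1, T w.2)) (T w.2) := by
        rw [hM]
        exact (h4.differentiableAt (by simp)).hasFDerivAt
      have h6 : HasFDerivAt T (fderiv ℝ T w.2) w.2 :=
        ((hTd _ hw2).2.differentiableAt (by simp)).hasFDerivAt
      rw [hTerm]
      exact (h5.comp w.2 h6).fderiv
    refine ContinuousAt.congr ?_ hev.symm
    have h7 : ContinuousAt (fun w : ℝ × E n => M (w.1, T w.2)) (t, z) :=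
      ContinuousAt.comp (g := M) (f := fun w : ℝ × E n => (w.1, T w.2)) (x := (t, z)) hMc hTc
    have h8 : ContinuousAt (fun w : ℝ × E n => fderiv ℝ T w.2) (t, z) := by
      have h9 : ContDiffAt ℝ 1 (fderiv ℝ T) z := hTs.fderiv_right (m := 1) (by norm_cast)
      exact ContinuousAt.comp (f := fun p : ℝ × E n => p.2) (x := (t, z)) h9.continuousAt
        continuousAt_snd
    exact h7.clm_comp h8

end Pool.Agent.Y273.NA
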